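import Pool.Agent.Helper96.MP.Defs

set_option autoImplicit false

namespace Pool.Agent.Helper96.MP

/-- local factor: `k + 1 ≤ 32 * 2^{k/16}` -/
theorem divb_loc (k : ℕ) : ((k : ℝ) + 1) ≤ 32 * (2 : ℝ) ^ ((k : ℝ) / 16) := by
  have h1 : (1 / 2 : ℝ) < Real.log 2 := by
    have := Real.log_two_gt_d9
    linarith
  have h2 : (2 : ℝ) ^ ((k : ℝ) / 16) = Real.exp (Real.log 2 * ((k : ℝ) / 16)) := by
    rw [Real.rpow_def_of_pos (by norm_num)]
  have h3 := Real.add_one_le_exp (Real.log 2 * ((k : ℝ) / 16))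
  have hk : (0 : ℝ) ≤ k := Nat.cast_nonneg k
  rw [h2]
  nlinarith

theorem divb_big (p k : ℕ) (hp : 2 ^ 16 ≤ p) : ((k : ℝ) + 1) ≤ (p : ℝ) ^ ((k : ℝ) / 16) := by
  have h0 : ((k : ℝ) + 1) ≤ 2 ^ k := by
    have := Nat.lt_two_pow_self (n := k)
    have h : k + 1 ≤ 2 ^ k := this
    exact_mod_cast h
  have h1 : (2 : ℝ) ^ k = ((2 : ℝ) ^ 16) ^ ((k : ℝ) / 16) := by
    rw [← Real.rpow_natCast, ← Real.rpow_natCast, ← Real.rpow_mul (by norm_num)]
    congr 1
    push_cast; ring
  rw [h1] at h0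
  refine h0.trans (Real.rpow_le_rpow (by positivity) ?_ (by positivity))
  exact_mod_cast hp

theorem st_DIVB : ST_DIVB := by
  refine ⟨(32 : ℝ) ^ (2 ^ 16), by positivity, fun n hn => ?_⟩
  have hn0 : n ≠ 0 := by omega
  have hcard : (n.divisors.card : ℝ) = ∏ p ∈ n.primeFactors, ((n.factorization p : ℝ) + 1) := by
    rw [Nat.card_divisors hn0]; push_cast; rfl
  have hpow : (n : ℝ) ^ (1 / 16 : ℝ) =
      ∏ p ∈ n.primeFactors, (p : ℝ) ^ ((n.factorization p : ℝ) / 16) := by
    have h1 : (n : ℝ) = ∏ p ∈ n.primeFactors, (p : ℝ) ^ (n.factorization p : ℝ) := by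
      conv_lhs => rw [← Nat.prod_factorization_pow_eq_self hn0]
      rw [Finsupp.prod, Nat.support_factorization]
      push_cast
      refine Finset.prod_congr rfl fun p _ => ?_
      rw [Real.rpow_natCast]
    rw [h1, ← Real.finsetProd_rpow _ _ (fun p _ => by positivity)]
    refine Finset.prod_congr rfl fun p _ => ?_
    rw [← Real.rpow_mul (by positivity)]
    congr 1; ring
  have key : ∏ p ∈ n.primeFactors, ((n.factorization p : ℝ) + 1) ≤
      ∏ p ∈ n.primeFactors, ((if p < 2 ^ 16 then (32 : ℝ) else 1) *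
        (p : ℝ) ^ ((n.factorization p : ℝ) / 16)) := by
    refine Finset.prod_le_prod (fun p _ => by positivity) fun p hp => ?_
    by_cases h : p < 2 ^ 16
    · rw [if_pos h]
      refine (divb_loc _).trans ?_
      have hp2 : 2 ≤ p := (Nat.prime_of_mem_primeFactors hp).two_le
      have : (2 : ℝ) ^ ((n.factorization p : ℝ) / 16) ≤ (p : ℝ) ^ ((n.factorization p : ℝ) / 16) :=
        Real.rpow_le_rpow (by norm_num) (by exact_mod_cast hp2) (by positivity)
      linarith
    · rw [if_neg h, one_mul]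
      exact divb_big p _ (by omega)
  rw [hcard, hpow]
  refine key.trans ?_
  rw [Finset.prod_mul_distrib]
  refine mul_le_mul_of_nonneg_right ?_ (Finset.prod_nonneg fun p _ => by positivity)
  rw [Finset.prod_ite, Finset.prod_const, Finset.prod_const_one, mul_one]
  refine pow_le_pow_right₀ (by norm_num) ?_
  calc (n.primeFactors.filter (fun p => p < 2 ^ 16)).card ≤ (Finset.range (2 ^ 16)).card := by
        refine Finset.card_le_card fun p hp => ?_
        rw [Finset.mem_filter] at hp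
        exact Finset.mem_range.2 hp.2
    _ = 2 ^ 16 := Finset.card_range _

end Pool.Agent.Helper96.MP
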