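import Pool.Agent.Helper96.MP.Defs

set_option autoImplicit false

namespace Pool.Agent.Helper96.MP

theorem herm_ex (n : ℕ) (hn : 1 ≤ n) (p q r s : ℤ) (h : p * s - q * r = (n : ℤ)) :
    ∃ t : ℕ × ℕ × ℕ, t ∈ Tn n ∧ ∃ p' q' r' s' : ℤ, p' * s' - q' * r' = 1 ∧
    p = p' * t.1 ∧ q = p' * t.2.1 + q' * t.2.2 ∧ r = r' * t.1 ∧ s = r' * t.2.1 + s' * t.2.2 := by
  have hn0 : (0 : ℤ) < n := by exact_mod_cast hn
  have hpr : ¬ (p = 0 ∧ r = 0) := by
    rintro ⟨rfl, rfl⟩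
    simp at h
    omega
  have ha : 0 < Int.gcd p r := by
    rw [Int.gcd_pos_iff]
    by_contra hc
    push Not at hc
    exact hpr ⟨hc.1, hc.2⟩
  set a : ℕ := Int.gcd p r with hadef
  have ha' : (0 : ℤ) < a := by exact_mod_cast ha
  obtain ⟨p', hp'⟩ : (a : ℤ) ∣ p := Int.gcd_dvd_left _ _
  obtain ⟨r', hr'⟩ : (a : ℤ) ∣ r := Int.gcd_dvd_right _ _
  have hbez : (a : ℤ) = p * Int.gcdA p r + r * Int.gcdB p r := Int.gcd_eq_gcd_ab p r
  set u := Int.gcdA p r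
  set v := Int.gcdB p r
  have huv : p' * u + r' * v = 1 := by
    have : (a : ℤ) * (p' * u + r' * v) = a * 1 := by
      linear_combination (-1 : ℤ) * hbez - u * hp' - v * hr'
    exact mul_left_cancel₀ (ne_of_gt ha') this
  set d : ℤ := p' * s - r' * q with hd
  have had : (a : ℤ) * d = n := by
    rw [← h, hd, hp', hr']; ring
  have hdpos : 0 < d := by
    by_contra hc
    push Not at hc
    nlinarith
  set b0 : ℤ := u * q + v * s with hb0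
  set b : ℤ := b0 % d with hb
  have hb1 : 0 ≤ b := Int.emod_nonneg _ (ne_of_gt hdpos)
  have hb2 : b < d := Int.emod_lt_of_pos _ hdpos
  have hbk : b0 = b + (b0 / d) * d := by
    have := Int.emod_add_mul_ediv b0 d
    rw [hb]; linarith
  set k := b0 / d
  have hdn : (d.toNat : ℤ) = d := Int.toNat_of_nonneg hdpos.le
  have hbn : (b.toNat : ℤ) = b := Int.toNat_of_nonneg hb1
  have hadn : a * d.toNat = n := by
    have : ((a * d.toNat : ℕ) : ℤ) = n := by push_cast; rw [hdn, had]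
    exact_mod_cast this
  have hblt : b.toNat < d.toNat := by
    have : ((b.toNat : ℕ) : ℤ) < d.toNat := by rw [hdn, hbn]; exact hb2
    exact_mod_cast this
  have hdle : d.toNat ≤ n := by
    rw [← hadn]; exact Nat.le_mul_of_pos_left _ ha
  have hale : a ≤ n := by
    rw [← hadn]; exact Nat.le_mul_of_pos_right _ (by omega)
  refine ⟨(a, b.toNat, d.toNat), ?_, p', -v + k * p', r', u + k * r', ?_, ?_, ?_, ?_, ?_⟩
  · simp only [Tn, Finset.mem_filter, Finset.mem_product, Finset.mem_range]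
    exact ⟨⟨by omega, by omega, by omega⟩, hadn, hblt⟩
  · linear_combination huv
  · simp only; rw [hp']; ring
  · simp only
    rw [hbn, hdn]
    have e1 : p' * b + (-v + k * p') * d = p' * b0 - v * d := by rw [hbk]; ring
    rw [e1, hb0, hd]
    linear_combination (-q) * huv
  · simp only; rw [hr']; ring
  · simp only
    rw [hbn, hdn]
    have e1 : r' * b + (u + k * r') * d = r' * b0 + u * d := by rw [hbk]; ring
    rw [e1, hb0, hd]
    linear_combination (-s) * huv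

theorem herm_uniq (n : ℕ) (p q r s : ℤ) (t₁ t₂ : ℕ × ℕ × ℕ) (hn : 1 ≤ n)
    (h₁ : t₁ ∈ Tn n) (h₂ : t₂ ∈ Tn n)
    (g₁ : ∃ p' q' r' s' : ℤ, p' * s' - q' * r' = 1 ∧
      p = p' * t₁.1 ∧ q = p' * t₁.2.1 + q' * t₁.2.2 ∧ r = r' * t₁.1 ∧ s = r' * t₁.2.1 + s' * t₁.2.2)
    (g₂ : ∃ p' q' r' s' : ℤ, p' * s' - q' * r' = 1 ∧
      p = p' * t₂.1 ∧ q = p' * t₂.2.1 + q' * t₂.2.2 ∧ r = r' * t₂.1 ∧ s = r' * t₂.2.1 + s' * t₂.2.2) :
    t₁ = t₂ := by
  obtain ⟨a₁, b₁, d₁⟩ := t₁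
  obtain ⟨a₂, b₂, d₂⟩ := t₂
  obtain ⟨p₁, q₁, r₁, s₁, e₁, f₁, f₂, f₃, f₄⟩ := g₁
  obtain ⟨p₂, q₂, r₂, s₂, e₂, k₁, k₂, k₃, k₄⟩ := g₂
  simp only [Tn, Finset.mem_filter, Finset.mem_product, Finset.mem_range] at h₁ h₂
  obtain ⟨-, had₁, hbd₁⟩ := h₁
  obtain ⟨-, had₂, hbd₂⟩ := h₂
  simp only at f₁ f₂ f₃ f₄ k₁ k₂ k₃ k₄
  have hg₁ : Int.gcd p r = a₁ := by
    have hc : Int.gcd p₁ r₁ = 1 := by
      rw [← Int.isCoprime_iff_gcd_eq_one]
      exact ⟨s₁, -q₁, by linear_combination e₁⟩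
    rw [f₁, f₃, Int.gcd_mul_right, hc]; simp
  have hg₂ : Int.gcd p r = a₂ := by
    have hc : Int.gcd p₂ r₂ = 1 := by
      rw [← Int.isCoprime_iff_gcd_eq_one]
      exact ⟨s₂, -q₂, by linear_combination e₂⟩
    rw [k₁, k₃, Int.gcd_mul_right, hc]; simp
  have haa : a₁ = a₂ := by rw [← hg₁, ← hg₂]
  subst haa
  have hapos : 0 < a₁ := by
    rcases Nat.eq_zero_or_pos a₁ with h | h
    · subst h; simp at had₁; omega
    · exact h
  have hdd : d₁ = d₂ := by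
    have : a₁ * d₁ = a₁ * d₂ := by rw [had₁, had₂]
    exact Nat.eq_of_mul_eq_mul_left hapos this
  subst hdd
  have ha' : (a₁ : ℤ) ≠ 0 := by exact_mod_cast hapos.ne'
  have hp : p₁ = p₂ := mul_right_cancel₀ ha' (by rw [← f₁, ← k₁])
  have hr : r₁ = r₂ := mul_right_cancel₀ ha' (by rw [← f₃, ← k₃])
  subst hp; subst hr
  have hdv : (d₁ : ℤ) ∣ (b₁ : ℤ) - b₂ := by
    have e3 : p₁ * ((b₁ : ℤ) - b₂) = (q₂ - q₁) * d₁ := by linear_combination k₂ - f₂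
    have e4 : r₁ * ((b₁ : ℤ) - b₂) = (s₂ - s₁) * d₁ := by linear_combination k₄ - f₄
    refine ⟨s₁ * (q₂ - q₁) - q₁ * (s₂ - s₁), ?_⟩
    linear_combination (-((b₁ : ℤ) - b₂)) * e₁ + s₁ * e3 - q₁ * e4
  have hbb : (b₁ : ℤ) - b₂ = 0 := by
    apply Int.eq_zero_of_abs_lt_dvd hdv
    rw [abs_lt]; constructor <;> omega
  have : b₁ = b₂ := by omega
  rw [this]

theorem st_HERM : ST_HERM := by
  intro n hn p q r s h
  obtain ⟨t, ht, hg⟩ := herm_ex n hn p q r s h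
  refine ⟨t, ⟨ht, hg⟩, ?_⟩
  rintro t' ⟨ht', hg'⟩
  exact herm_uniq n p q r s t' t hn ht' ht hg' hg

end Pool.Agent.Helper96.MP
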